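import Pool.Agent.Run7.h751.Ev10

/-!
For every exponent `d ≥ 2`, every `b` and every prime `ℓ ≥ 5` the generating function of
`n ↦ p_d (2 n + b)` modulo `ℓ` is transcendental over `F_ℓ(X)`. In particular there is no
congruence `p_d (2 n + b) ≡ r (mod m)` for all `n` when `m` has a prime factor at least `5`.
-/

theorem Pool.Agent.Results.MP_85b516_nt.ParityClasses.result :
    ∀ d : ℕ, 2 ≤ d → ∀ b : ℕ, ∀ (ℓ : ℕ) [Fact ℓ.Prime], 5 ≤ ℓ →
      Transcendental (Polynomial (ZMod ℓ))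
        (PowerSeries.mk fun n : ℕ => ((Run7.h751.pd d (2 * n + b) : ℕ) : ZMod ℓ)) ∧
      ∀ m r : ℕ, ℓ ∣ m → ∃ n : ℕ, ¬ (Run7.h751.pd d (2 * n + b) ≡ r [MOD m]) := by
  intro d hd b ℓ _ hℓ
  have h := Run7.h751.both_classes ℓ hℓ d hd b
  exact ⟨h, fun m r hm => Run7.h751.no_congruence ℓ d 2 b h m hm r⟩
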