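import Pool.Agent.Run7.h751.Section

/-!
For every exponent `d ≥ 2`, every prime `ℓ` and every modulus `a ≥ 1` some residue class `b` mod `a`
has the property that the generating function of `n ↦ p_d (a n + b)` modulo `ℓ` is transcendental
over `F_ℓ(X)`.
-/

theorem Pool.Agent.Results.MP_85b516_nt.SectionTranscendence.result :
    ∀ d : ℕ, 2 ≤ d → ∀ (ℓ : ℕ) [Fact ℓ.Prime] (a : ℕ), 1 ≤ a →
      ∃ b : ℕ, b < a ∧ Transcendental (Polynomial (ZMod ℓ))
        (PowerSeries.mk fun n : ℕ => ((Run7.h751.pd d (a * n + b) : ℕ) : ZMod ℓ)) := by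
  intro d hd ℓ _ a ha
  exact Run7.h751.exists_section_transcendental (k := ZMod ℓ) ℓ d hd a (by omega)
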